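import Mathlib

set_option autoImplicit false

namespace Pool.Agent.Lib.MP_9a0e7c_co

open Set

/-- If two finite families have the same Gram matrix and the first one spans, then there is a
linear isometry carrying the first one to the second one. -/
lemma exists_isometry {ι F E : Type*} [NormedAddCommGroup F] [InnerProductSpace ℝ F]
    [NormedAddCommGroup E] [InnerProductSpace ℝ E] (a : ι → F) (A : ι → E)
    (hspan : Submodule.span ℝ (range a) = ⊤)
    (hG : ∀ i j, inner ℝ (A i) (A j) = inner ℝ (a i) (a j)) :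
    ∃ U : F →ₗᵢ[ℝ] E, ∀ i, U (a i) = A i := by
  classical
  let φ : (ι →₀ ℝ) →ₗ[ℝ] F := Finsupp.linearCombination ℝ a
  let ψ : (ι →₀ ℝ) →ₗ[ℝ] E := Finsupp.linearCombination ℝ A
  have hnorm : ∀ c, ‖ψ c‖ = ‖φ c‖ := by
    intro c
    have h : inner ℝ (ψ c) (ψ c) = (inner ℝ (φ c) (φ c) : ℝ) := by
      simp only [φ, ψ, Finsupp.linearCombination_apply, Finsupp.sum, sum_inner, inner_sum,
        real_inner_smul_left, real_inner_smul_right, hG]
    rw [real_inner_self_eq_norm_sq, real_inner_self_eq_norm_sq] at h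
    exact (pow_left_inj₀ (norm_nonneg _) (norm_nonneg _) (by norm_num)).1 h
  have hsurj : LinearMap.range φ = ⊤ := by
    rw [← hspan]
    exact Finsupp.range_linearCombination ℝ
  obtain ⟨s, hs⟩ := φ.exists_rightInverse_of_surjective hsurj
  have hs' : ∀ x, φ (s x) = x := fun x => by
    have := congrArg (fun f => f x) hs
    simpa using this
  refine ⟨⟨ψ.comp s, fun x => ?_⟩, fun i => ?_⟩
  · simp only [LinearMap.comp_apply]
    rw [hnorm, hs']
  · have h1 : ψ (s (a i) - Finsupp.single i 1) = 0 := by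
      rw [← norm_eq_zero, hnorm, map_sub, hs']
      simp [φ]
    rw [map_sub, sub_eq_zero] at h1
    change ψ (s (a i)) = A i
    rw [h1]
    simp [ψ]

/-- If a distance agrees at the two ends of a monotone unit motion, then the inner product is
constant. -/
lemma inner_const {ι E : Type*} [NormedAddCommGroup E] [InnerProductSpace ℝ E]
    (m : ℝ → ι → E) (hn : ∀ t ∈ Icc (0:ℝ) 1, ∀ i, ‖m t i‖ = 1) (i j : ι)
    (hmono : MonotoneOn (fun t => dist (m t i) (m t j)) (Icc 0 1) ∨
             AntitoneOn (fun t => dist (m t i) (m t j)) (Icc 0 1))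
    (heq : dist (m 0 i) (m 0 j) = dist (m 1 i) (m 1 j)) :
    ∀ t ∈ Icc (0:ℝ) 1, inner ℝ (m t i) (m t j) = inner ℝ (m 0 i) (m 0 j) := by
  have h0 : (0:ℝ) ∈ Icc (0:ℝ) 1 := by simp
  have h1 : (1:ℝ) ∈ Icc (0:ℝ) 1 := by simp
  have key : ∀ t ∈ Icc (0:ℝ) 1,
      dist (m t i) (m t j) ^ 2 = 2 - 2 * inner ℝ (m t i) (m t j) := by
    intro t ht
    rw [dist_eq_norm, @norm_sub_sq_real, hn t ht i, hn t ht j]
    ring
  intro t ht
  have ht' : dist (m t i) (m t j) = dist (m 0 i) (m 0 j) := by
    rcases hmono with h | h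
    · have a := h h0 ht ht.1
      have b := h ht h1 ht.2
      simp only at a b
      linarith
    · have a := h h0 ht ht.1
      have b := h ht h1 ht.2
      simp only at a b
      linarith
  have e1 := key t ht
  have e2 := key 0 h0
  rw [ht'] at e1
  linarith

/-- Two orthogonal isometric copies of an `n`-dimensional space need `2 n` dimensions. -/
lemma finrank_le_of_orth {F E : Type*} [NormedAddCommGroup F] [InnerProductSpace ℝ F]
    [NormedAddCommGroup E] [InnerProductSpace ℝ E] [FiniteDimensional ℝ E]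
    [FiniteDimensional ℝ F]
    (U V : F →ₗᵢ[ℝ] E) (h : ∀ x y, inner ℝ (U x) (V y) = (0:ℝ)) :
    2 * Module.finrank ℝ F ≤ Module.finrank ℝ E := by
  have hinj : Function.Injective (LinearMap.coprod U.toLinearMap V.toLinearMap) := by
    rw [← LinearMap.ker_eq_bot, LinearMap.ker_eq_bot']
    rintro ⟨x, y⟩ hxy
    simp only [LinearMap.coprod_apply, LinearIsometry.coe_toLinearMap] at hxy
    have h1 : inner ℝ (U x) (U x + V y) = (0:ℝ) := by rw [hxy, inner_zero_right]
    rw [inner_add_right, h, add_zero, inner_self_eq_zero] at h1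
    rw [h1, zero_add] at hxy
    have hx : x = 0 := by
      rw [← norm_eq_zero, ← U.norm_map, h1, norm_zero]
    have hy : y = 0 := by
      rw [← norm_eq_zero, ← V.norm_map, hxy, norm_zero]
    rw [hx, hy]
    rfl
  have := LinearMap.finrank_le_finrank_of_injective hinj
  rw [Module.finrank_prod] at this
  omega

end Pool.Agent.Lib.MP_9a0e7c_co
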