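import Mathlib
import Pool.Agent.Lib.MP_9a0e7c_co.Core

set_option autoImplicit false

namespace Pool.Agent.Lib.MP_9a0e7c_co

open Set

/-- The sign of a Boolean. -/
def sg (b : Bool) : ℝ := if b then 1 else -1

@[simp] lemma sg_true : sg true = 1 := rfl
@[simp] lemma sg_false : sg false = -1 := rfl

lemma sg_mul_self (b : Bool) : sg b * sg b = 1 := by cases b <;> simp

lemma sg_not (b : Bool) : sg (!b) = - sg b := by cases b <;> simp

/-- The standard basis vector. -/
noncomputable abbrev ev {n : ℕ} (k : Fin n) : EuclideanSpace ℝ (Fin n) := EuclideanSpace.single k 1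

/-- Vertices of the cross polytope at height one (unnormalised). -/
noncomputable def av {d : ℕ} (i : Fin d) (s : Bool) : EuclideanSpace ℝ (Fin (d + 1)) :=
  sg s • ev i.succ + ev 0

/-- Vertices of the cube at height one (unnormalised). -/
noncomputable def bv {d : ℕ} (ε : Fin d → Bool) : EuclideanSpace ℝ (Fin (d + 1)) :=
  ∑ j, sg (ε j) • ev j.succ + ev 0

lemma bilin_zero {d : ℕ} (hd : 2 ≤ d)
    (β : EuclideanSpace ℝ (Fin (d + 1)) →ₗ[ℝ] EuclideanSpace ℝ (Fin (d + 1)) →ₗ[ℝ] ℝ)
    (h : ∀ i s (ε : Fin d → Bool), ε i = !s → β (av i s) (bv ε) = 0)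
    (i₀ : Fin d) (h0 : β (av i₀ true) (bv fun _ => true) = 0) : β = 0 := by
  have s1 : ∀ (i k : Fin d) (s : Bool), k ≠ i → β (av i s) (ev k.succ) = 0 := by
    intro i k s hk
    let ε : Fin d → Bool := fun j => if j = i then !s else true
    have h1 := h i s ε (by simp [ε])
    have h2 := h i s (Function.update ε k false) (by
      rw [Function.update_of_ne (Ne.symm hk)]
      simp [ε])
    have h3 : bv ε - bv (Function.update ε k false) = (2:ℝ) • ev k.succ := by
      simp only [bv, add_sub_add_right_eq_sub, ← Finset.sum_sub_distrib, ← sub_smul]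
      rw [Finset.sum_eq_single k]
      · simp [ε, hk]
        norm_num
      · intro j _ hj
        rw [Function.update_of_ne hj, sub_self, zero_smul]
      · simp
    have h4 : β (av i s) ((2:ℝ) • ev k.succ) = 0 := by
      rw [← h3, map_sub, h1, h2, sub_zero]
    rw [map_smul, smul_eq_mul] at h4
    linarith
  have s1' : ∀ (i k : Fin d), k ≠ i → β (ev i.succ) (ev k.succ) = 0 ∧ β (ev 0) (ev k.succ) = 0 := by
    intro i k hk
    have h1 := s1 i k true hk
    have h2 := s1 i k false hk
    simp only [av, map_add, map_smul, LinearMap.add_apply, LinearMap.smul_apply, sg_true, sg_false,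
      smul_eq_mul] at h1 h2
    constructor <;> linarith
  have s2 : ∀ k : Fin d, β (ev 0) (ev k.succ) = 0 := by
    intro k
    have : Nontrivial (Fin d) := Fin.nontrivial_iff_two_le.2 hd
    obtain ⟨i, hi⟩ := exists_ne k
    exact (s1' i k hi.symm).2
  have s3 : ∀ (i : Fin d) (s : Bool), β (av i s) ((- sg s) • ev i.succ + ev 0) = 0 := by
    intro i s
    let ε : Fin d → Bool := fun j => if j = i then !s else true
    have h1 := h i s ε (by simp [ε])
    rw [bv, map_add, map_sum, Finset.sum_eq_single i] at h1
    · rw [map_add]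
      simpa [ε, sg_not] using h1
    · intro j _ hj
      rw [map_smul, s1 i j s hj, smul_zero]
    · simp
  have s4 : ∀ i : Fin d, β (ev i.succ) (ev i.succ) = β (ev 0) (ev 0) ∧ β (ev i.succ) (ev 0) = 0 := by
    intro i
    have h1 := s3 i true
    have h2 := s3 i false
    have h3 := s2 i
    simp only [av, map_add, map_smul, LinearMap.add_apply, LinearMap.smul_apply, sg_true, sg_false,
      smul_eq_mul, h3] at h1 h2
    constructor <;> linarith
  have hc : β (ev 0) (ev 0) = 0 := by
    rw [bv, map_add, map_sum, Finset.sum_eq_single i₀] at h0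
    · have h3 := s2 i₀
      have h4 := s4 i₀
      simp only [av, map_add, map_smul, LinearMap.add_apply, LinearMap.smul_apply, sg_true,
        smul_eq_mul, h3, h4.1, h4.2] at h0
      linarith
    · intro j _ hj
      rw [map_smul, s1 i₀ j true hj, smul_zero]
    · simp
  have hall : ∀ j k : Fin (d + 1), β (ev j) (ev k) = 0 := by
    intro j k
    refine Fin.cases ?_ (fun j' => ?_) j
    · refine Fin.cases hc (fun k' => s2 k') k
    · refine Fin.cases (s4 j').2 (fun k' => ?_) k
      by_cases hjk : k' = j'
      · rw [hjk, (s4 j').1, hc]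
      · exact (s1' j' k' hjk).1
  apply (EuclideanSpace.basisFun (Fin (d + 1)) ℝ).toBasis.ext
  intro j
  apply (EuclideanSpace.basisFun (Fin (d + 1)) ℝ).toBasis.ext
  intro k
  simpa using hall j k

end Pool.Agent.Lib.MP_9a0e7c_co
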