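import Mathlib
import Pool.Agent.Lib.MP_9a0e7c_co.Cube

set_option autoImplicit false

namespace Pool.Agent.Lib.MP_9a0e7c_co

open Set

lemma inner_av_av {d : ℕ} (i j : Fin d) (s r : Bool) :
    inner ℝ (av i s) (av j r) = (if i = j then sg s * sg r else 0) + 1 := by
  simp only [av, inner_add_left, inner_add_right, real_inner_smul_left, real_inner_smul_right,
    EuclideanSpace.inner_single_left, PiLp.single_apply]
  by_cases h : i = j
  · simp [h, Fin.succ_ne_zero, (Fin.succ_ne_zero _).symm, mul_comm]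
  · simp [h, Fin.succ_ne_zero, (Fin.succ_ne_zero _).symm]

lemma inner_av_bv {d : ℕ} (i : Fin d) (s : Bool) (ε : Fin d → Bool) :
    inner ℝ (av i s) (bv ε) = sg s * sg (ε i) + 1 := by
  simp only [av, bv, inner_add_left, inner_add_right, real_inner_smul_left, real_inner_smul_right,
    EuclideanSpace.inner_single_left, PiLp.single_apply, inner_sum]
  simp [Fin.succ_ne_zero, (Fin.succ_ne_zero _).symm, mul_comm]

lemma inner_bv_bv {d : ℕ} (ε δ : Fin d → Bool) :
    inner ℝ (bv ε) (bv δ) = ∑ j, sg (ε j) * sg (δ j) + 1 := by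
  simp only [bv, inner_add_left, inner_add_right, real_inner_smul_left, real_inner_smul_right,
    EuclideanSpace.inner_single_left, PiLp.single_apply, inner_sum, sum_inner]
  simp [Fin.succ_ne_zero, (Fin.succ_ne_zero _).symm, mul_comm]

lemma norm_av {d : ℕ} (i : Fin d) (s : Bool) : ‖av i s‖ = √2 := by
  rw [norm_eq_sqrt_real_inner, inner_av_av]
  simp [sg_mul_self]
  norm_num

lemma norm_bv {d : ℕ} (ε : Fin d → Bool) : ‖bv ε‖ = √((d:ℝ) + 1) := by
  rw [norm_eq_sqrt_real_inner, inner_bv_bv]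
  simp [sg_mul_self]

/-- The index set. -/
abbrev Idx (d : ℕ) := (Fin d × Bool) ⊕ (Fin d → Bool)

/-- Starting configuration. -/
noncomputable def P (d : ℕ) : Idx d → EuclideanSpace ℝ (Fin (d + 1)) :=
  Sum.elim (fun x => (√2)⁻¹ • av x.1 x.2) (fun ε => - ((√((d:ℝ) + 1))⁻¹ • bv ε))

/-- Final configuration. -/
noncomputable def Q (d : ℕ) : Idx d → EuclideanSpace ℝ (Fin (d + 1)) :=
  Sum.elim (fun x => (√2)⁻¹ • av x.1 x.2) (fun ε => (√((d:ℝ) + 1))⁻¹ • bv ε)

lemma sqrt_pos' (d : ℕ) : 0 < √((d:ℝ) + 1) := Real.sqrt_pos.2 (by positivity)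

lemma sqrt2_pos : 0 < √(2:ℝ) := Real.sqrt_pos.2 (by positivity)

lemma norm_P (d : ℕ) (i : Idx d) : ‖P d i‖ = 1 := by
  rcases i with x | ε
  · simp only [P, Sum.elim_inl, norm_smul, norm_av, norm_inv, Real.norm_eq_abs,
      abs_of_pos sqrt2_pos]
    exact inv_mul_cancel₀ sqrt2_pos.ne'
  · simp only [P, Sum.elim_inr, norm_neg, norm_smul, norm_bv, norm_inv, Real.norm_eq_abs,
      abs_of_pos (sqrt_pos' d)]
    exact inv_mul_cancel₀ (sqrt_pos' d).ne'

lemma norm_Q (d : ℕ) (i : Idx d) : ‖Q d i‖ = 1 := by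
  rcases i with x | ε
  · simp only [Q, Sum.elim_inl, norm_smul, norm_av, norm_inv, Real.norm_eq_abs,
      abs_of_pos sqrt2_pos]
    exact inv_mul_cancel₀ sqrt2_pos.ne'
  · simp only [Q, Sum.elim_inr, norm_smul, norm_bv, norm_inv, Real.norm_eq_abs,
      abs_of_pos (sqrt_pos' d)]
    exact inv_mul_cancel₀ (sqrt_pos' d).ne'

lemma sg_mul_add_nonneg (s r : Bool) : 0 ≤ sg s * sg r + 1 := by
  cases s <;> cases r <;> norm_num

lemma dist_sq_unit {E : Type*} [NormedAddCommGroup E] [InnerProductSpace ℝ E] {x y : E}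
    (hx : ‖x‖ = 1) (hy : ‖y‖ = 1) : dist x y ^ 2 = 2 - 2 * inner ℝ x y := by
  rw [dist_eq_norm, @norm_sub_sq_real, hx, hy]
  ring

lemma inner_P_cross (d : ℕ) (x : Fin d × Bool) (ε : Fin d → Bool) :
    inner ℝ (P d (Sum.inl x)) (P d (Sum.inr ε)) =
      - ((√2)⁻¹ * ((√((d:ℝ) + 1))⁻¹ * (sg x.2 * sg (ε x.1) + 1))) := by
  simp only [P, Sum.elim_inl, Sum.elim_inr, inner_neg_right, real_inner_smul_left,
      real_inner_smul_right, inner_av_bv]
  ring

lemma inner_Q_cross (d : ℕ) (x : Fin d × Bool) (ε : Fin d → Bool) :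
    inner ℝ (Q d (Sum.inl x)) (Q d (Sum.inr ε)) =
      ((√2)⁻¹ * ((√((d:ℝ) + 1))⁻¹ * (sg x.2 * sg (ε x.1) + 1))) := by
  simp only [Q, Sum.elim_inl, Sum.elim_inr, real_inner_smul_left,
      real_inner_smul_right, inner_av_bv]
  ring

lemma cross_nonneg (d : ℕ) (x : Fin d × Bool) (ε : Fin d → Bool) :
    0 ≤ ((√2)⁻¹ * ((√((d:ℝ) + 1))⁻¹ * (sg x.2 * sg (ε x.1) + 1))) := by
  have h := sg_mul_add_nonneg x.2 (ε x.1)
  have h2 := sqrt2_pos
  have h3 := sqrt_pos' d
  positivity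

lemma inner_P_le_Q (d : ℕ) (i j : Idx d) :
    (inner ℝ (P d i) (P d j) : ℝ) ≤ inner ℝ (Q d i) (Q d j) := by
  rcases i with x | ε <;> rcases j with y | δ
  · exact le_refl _
  · rw [inner_P_cross, inner_Q_cross]
    have := cross_nonneg d x δ
    linarith
  · rw [real_inner_comm, real_inner_comm (Q d (Sum.inl y)), inner_P_cross, inner_Q_cross]
    have := cross_nonneg d y ε
    linarith
  · simp only [P, Q, Sum.elim_inr, inner_neg_neg]
    exact le_refl _

/-- `Q` is a contraction of `P`. -/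
lemma dist_Q_le_P (d : ℕ) (i j : Idx d) : dist (Q d i) (Q d j) ≤ dist (P d i) (P d j) := by
  have h1 := dist_sq_unit (norm_P d i) (norm_P d j)
  have h2 := dist_sq_unit (norm_Q d i) (norm_Q d j)
  have h3 := inner_P_le_Q d i j
  apply le_of_sq_le_sq _ dist_nonneg
  rw [h1, h2]
  linarith

/-- Starting cluster vectors. -/
noncomputable def ac (d : ℕ) (x : Fin d × Bool) : EuclideanSpace ℝ (Fin (d + 1)) :=
  (√2)⁻¹ • av x.1 x.2

/-- Second cluster vectors. -/
noncomputable def bc (d : ℕ) (ε : Fin d → Bool) : EuclideanSpace ℝ (Fin (d + 1)) :=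
  (√((d:ℝ) + 1))⁻¹ • bv ε

lemma top_le_of_ev {n : ℕ} (S : Submodule ℝ (EuclideanSpace ℝ (Fin n)))
    (h : ∀ k, ev k ∈ S) : S = ⊤ := by
  rw [eq_top_iff, ← (EuclideanSpace.basisFun (Fin n) ℝ).toBasis.span_eq, Submodule.span_le]
  rintro _ ⟨k, rfl⟩
  simpa using h k

lemma span_ac {d : ℕ} (hd : 0 < d) : Submodule.span ℝ (range (ac d)) = ⊤ := by
  have hav : ∀ i s, av i s ∈ Submodule.span ℝ (range (ac d)) := by
    intro i s
    have h1 : ac d (i, s) ∈ Submodule.span ℝ (range (ac d)) := Submodule.subset_span ⟨_, rfl⟩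
    have h2 : (√2 : ℝ) • ac d (i, s) = av i s := by
      rw [ac, smul_smul, mul_inv_cancel₀ sqrt2_pos.ne', one_smul]
    rw [← h2]
    exact Submodule.smul_mem _ _ h1
  apply top_le_of_ev
  intro k
  refine Fin.cases ?_ (fun i => ?_) k
  · have h1 := hav ⟨0, hd⟩ true
    have h2 := hav ⟨0, hd⟩ false
    have h3 : ev 0 = (1/2 : ℝ) • (av ⟨0, hd⟩ true + av ⟨0, hd⟩ false) := by
      simp only [av, sg_true, sg_false]
      module
    rw [h3]
    exact Submodule.smul_mem _ _ (Submodule.add_mem _ h1 h2)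
  · have h1 := hav i true
    have h2 := hav i false
    have h3 : ev i.succ = (1/2 : ℝ) • (av i true - av i false) := by
      simp only [av, sg_true, sg_false]
      module
    rw [h3]
    exact Submodule.smul_mem _ _ (Submodule.sub_mem _ h1 h2)

lemma span_bc {d : ℕ} : Submodule.span ℝ (range (bc d)) = ⊤ := by
  have hbv : ∀ ε, bv ε ∈ Submodule.span ℝ (range (bc d)) := by
    intro ε
    have h1 : bc d ε ∈ Submodule.span ℝ (range (bc d)) := Submodule.subset_span ⟨_, rfl⟩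
    have h2 : (√((d:ℝ) + 1) : ℝ) • bc d ε = bv ε := by
      rw [bc, smul_smul, mul_inv_cancel₀ (sqrt_pos' d).ne', one_smul]
    rw [← h2]
    exact Submodule.smul_mem _ _ h1
  have hs : ∀ i : Fin d, ev i.succ ∈ Submodule.span ℝ (range (bc d)) := by
    intro k
    have h1 := hbv fun _ => true
    have h2 := hbv (Function.update (fun _ => true) k false)
    have h3 : ev k.succ = (1/2 : ℝ) • (bv (fun _ : Fin d => true) -
        bv (Function.update (fun _ => true) k false)) := by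
      simp only [bv, add_sub_add_right_eq_sub, ← Finset.sum_sub_distrib, ← sub_smul]
      rw [Finset.sum_eq_single k]
      · simp only [Function.update_self, sg_true, sg_false, smul_smul]
        norm_num
      · intro j _ hj
        rw [Function.update_of_ne hj, sub_self, zero_smul]
      · simp
    rw [h3]
    exact Submodule.smul_mem _ _ (Submodule.sub_mem _ h1 h2)
  apply top_le_of_ev
  intro k
  refine Fin.cases ?_ (fun i => hs i) k
  have h1 := hbv fun _ => true
  have h3 : ev 0 = bv (fun _ : Fin d => true) - ∑ j : Fin d, ev j.succ := by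
    simp only [bv, sg_true, one_smul, add_sub_cancel_left]
  rw [h3]
  exact Submodule.sub_mem _ h1 (Submodule.sum_mem _ fun j _ => hs j)

/-- Main theorem: a monotone unit motion from (a congruent copy of) `P` to (a congruent copy of)
`Q` needs an ambient space of dimension at least `2 (d + 1)`. -/
theorem finrank_ge {d : ℕ} (hd : 2 ≤ d) {E : Type*} [NormedAddCommGroup E]
    [InnerProductSpace ℝ E] [FiniteDimensional ℝ E] (m : ℝ → Idx d → E)
    (hn : ∀ t ∈ Icc (0:ℝ) 1, ∀ i, ‖m t i‖ = 1)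
    (hc : ∀ i, ContinuousOn (fun t => m t i) (Icc (0:ℝ) 1))
    (h0 : ∀ i j, dist (m 0 i) (m 0 j) = dist (P d i) (P d j))
    (h1 : ∀ i j, dist (m 1 i) (m 1 j) = dist (Q d i) (Q d j))
    (hmono : ∀ i j, MonotoneOn (fun t => dist (m t i) (m t j)) (Icc 0 1) ∨
             AntitoneOn (fun t => dist (m t i) (m t j)) (Icc 0 1)) :
    2 * (d + 1) ≤ Module.finrank ℝ E := by
  have i0 : (0:ℝ) ∈ Icc (0:ℝ) 1 := by simp
  have i1 : (1:ℝ) ∈ Icc (0:ℝ) 1 := by simp
  have g0 : ∀ i j, inner ℝ (m 0 i) (m 0 j) = inner ℝ (P d i) (P d j) := by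
    intro i j
    have e1 := dist_sq_unit (hn 0 i0 i) (hn 0 i0 j)
    have e2 := dist_sq_unit (norm_P d i) (norm_P d j)
    rw [h0] at e1
    linarith
  have g1 : ∀ i j, inner ℝ (m 1 i) (m 1 j) = inner ℝ (Q d i) (Q d j) := by
    intro i j
    have e1 := dist_sq_unit (hn 1 i1 i) (hn 1 i1 j)
    have e2 := dist_sq_unit (norm_Q d i) (norm_Q d j)
    rw [h1] at e1
    linarith
  -- unchanged inner products stay constant
  have gc : ∀ t ∈ Icc (0:ℝ) 1, ∀ i j, inner ℝ (P d i) (P d j) = inner ℝ (Q d i) (Q d j) →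
      inner ℝ (m t i) (m t j) = inner ℝ (P d i) (P d j) := by
    intro t ht i j hij
    rw [← g0 i j]
    apply inner_const m hn i j (hmono i j) _ t ht
    have e1 := dist_sq_unit (hn 0 i0 i) (hn 0 i0 j)
    have e2 := dist_sq_unit (hn 1 i1 i) (hn 1 i1 j)
    rw [g0, hij, ← g1, ← e2] at e1
    exact (pow_left_inj₀ dist_nonneg dist_nonneg (by norm_num)).1 e1
  -- intermediate value theorem
  let z : Fin d := ⟨0, by omega⟩
  let X : Idx d := Sum.inl (z, true)
  let Y : Idx d := Sum.inr fun _ => true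
  have hcont : ContinuousOn (fun t => inner ℝ (m t X) (m t Y)) (Icc (0:ℝ) 1) :=
    (hc X).inner (hc Y)
  have hv0 : inner ℝ (m 0 X) (m 0 Y) ≤ (0:ℝ) := by
    rw [g0, inner_P_cross]
    have := cross_nonneg d (z, true) fun _ => true
    linarith
  have hv1 : (0:ℝ) ≤ inner ℝ (m 1 X) (m 1 Y) := by
    rw [g1, inner_Q_cross]
    exact cross_nonneg d (z, true) fun _ => true
  obtain ⟨t, ht, hct⟩ := intermediate_value_Icc (by norm_num : (0:ℝ) ≤ 1) hcont ⟨hv0, hv1⟩
  simp only at hct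
  -- the two rigid clusters at time `t`
  obtain ⟨U, hU⟩ := exists_isometry (ac d) (fun x => m t (Sum.inl x))
    (span_ac (by omega)) (fun x y => gc t ht (Sum.inl x) (Sum.inl y) rfl)
  obtain ⟨V, hV⟩ := exists_isometry (bc d) (fun ε => m t (Sum.inr ε)) span_bc (fun ε δ => by
    rw [gc t ht (Sum.inr ε) (Sum.inr δ) (by simp only [P, Q, Sum.elim_inr, inner_neg_neg])]
    simp only [P, Sum.elim_inr, inner_neg_neg, bc])
  let β : EuclideanSpace ℝ (Fin (d + 1)) →ₗ[ℝ] EuclideanSpace ℝ (Fin (d + 1)) →ₗ[ℝ] ℝ :=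
    (innerₗ E).compl₁₂ U.toLinearMap V.toLinearMap
  have hβ : ∀ x y, β x y = inner ℝ (U x) (V y) := fun x y => rfl
  have hab : ∀ i s ε, β (av i s) (bv ε) =
      √2 * √((d:ℝ) + 1) * inner ℝ (m t (Sum.inl (i, s))) (m t (Sum.inr ε)) := by
    intro i s ε
    have e1 : av i s = √2 • ac d (i, s) := by
      rw [ac, smul_smul, mul_inv_cancel₀ sqrt2_pos.ne', one_smul]
    have e2 : bv ε = √((d:ℝ) + 1) • bc d ε := by
      rw [bc, smul_smul, mul_inv_cancel₀ (sqrt_pos' d).ne', one_smul]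
    rw [e1, e2, map_smul, map_smul, LinearMap.smul_apply, hβ, hU, hV, smul_eq_mul, smul_eq_mul]
    ring
  have hβ0 : β = 0 := by
    apply bilin_zero hd β _ z
    · rw [hab, hct, mul_zero]
    · intro i s ε hε
      have e1 : inner ℝ (P d (Sum.inl (i, s))) (P d (Sum.inr ε)) = (0:ℝ) := by
        rw [inner_P_cross]
        simp [hε, sg_not, sg_mul_self]
      have e2 : inner ℝ (Q d (Sum.inl (i, s))) (Q d (Sum.inr ε)) = (0:ℝ) := by
        rw [inner_Q_cross]
        simp [hε, sg_not, sg_mul_self]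
      rw [hab, gc t ht _ _ (by rw [e1, e2]), e1, mul_zero]
  have := finrank_le_of_orth U V (fun x y => by rw [← hβ, hβ0]; rfl)
  simpa using this

end Pool.Agent.Lib.MP_9a0e7c_co
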